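import Pool.Agent.Helper9.Rank.Main

set_option autoImplicit false

namespace Pool.Agent.Helper9.Retired.FamilyExponent

open Pool.Agent.Helper9.BSD Pool.Agent.Helper9.Fam Pool.Agent.Helper9.Rank
open scoped Classical

/-- Let `k ≤ 3`. For integers `x i`, `z i` (`i < 3`) let `famCurve k x z` be the integral model of
the curve `y² = f(x)`, `f` the monic cubic with `f (x i) = z i ^ 2` for `i < k` and `f (x i) = z i`
for the other `i`; `Indep k hk x z` says that it is nonsingular and that its `k` marked points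
`(D² x i, D³ z i)`, `i < k`, `D = vdm x`, are linearly independent in the group of rational points.
For all `ε, η > 0` there is `n₀` such that, for `n ≥ n₀` and `H ≥ n ^ 3`, all but a proportion `η` of
the parameters in the box `|x i|, |z i| ≤ H` satisfy `Indep k hk x z` and
`|log (∏_{p ≤ n} N_p / p) - (k + 1/2) log log n| ≤ ε log log n`. -/
theorem result (k : ℕ) (hk : k ≤ 3) (ε η : ℝ) (hε : 0 < ε) (hη : 0 < η) :
    ∃ n₀ : ℕ, ∀ n H : ℕ, n₀ ≤ n → n ^ 3 ≤ H →
      ((((Fintype.piFinset fun _ : Fin 3 => Finset.Icc (-(H : ℤ)) H) ×ˢ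
        (Fintype.piFinset fun _ : Fin 3 => Finset.Icc (-(H : ℤ)) H)).filter
        (fun w => ¬ (Indep k hk w.1 w.2 ∧ |Real.log (bsdProd (famCurve k w.1 w.2) n)
          - (k + 1 / 2) * Real.log (Real.log n)| ≤ ε * Real.log (Real.log n)))).card : ℝ)
        ≤ η * (2 * H + 1) ^ 6 :=
  main_rank k hk ε η hε hη

end Pool.Agent.Helper9.Retired.FamilyExponent
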