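import Pool.Agent.Helper9.BSD.WNagao3
import Pool.Agent.Helper9.BSD.ContZero

set_option autoImplicit false

namespace Pool.Agent.Helper9.Retired.MestreNagao

open Pool.Agent.Helper9.BSD Pool.Agent.Helper9.CN Filter Topology MeasureTheory Set

/-- For every `n ≥ 1` the Euler product of the congruent number curve `y² = x³ - n² x` continues to
an entire function `F`, with a zero of some finite order `m` at `s = 1`.

Let `W` be an integral Weierstrass equation with nonzero discriminant, let `F` be entire and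
equal to the Euler product `LE W` for `Re s > 3/2`, and let `m` be the order of vanishing of `F` at
`s = 1`.
(1) If `nagaoSum W ⌊x⌋₊ ≤ K log x` for all large `x`, then `F` has no zero with `Re s > 1`, `m ≤ K`,
and for every `lam > 1` the mean of `nagaoSum` over `[x, lam x]` with respect to `dt/t` is
`(m + o(1)) log x`.
(2) If `limsup nagaoSum / log x ≤ m`, then `nagaoSum / log x → m` outside a set of natural density
zero.
(3), (4) The same with the inequalities reversed, if `F` has no zero in the real interval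
`(1, 3/2]`. -/
theorem result :
    (∀ n : ℕ, 0 < n → (congr n).Δ ≠ 0 ∧ ∃ (F : ℂ → ℂ) (m : ℕ), IsCont (congr n) F m) ∧
    ∀ W : WeierstrassCurve ℤ, W.Δ ≠ 0 → ∀ (F : ℂ → ℂ) (m : ℕ), IsCont W F m →
    (∀ K : ℝ, (∀ᶠ x : ℝ in atTop, nagaoSum W ⌊x⌋₊ ≤ K * Real.log x) →
      (∀ s : ℂ, 1 < s.re → F s ≠ 0) ∧ (m : ℝ) ≤ K ∧
      ∀ lam : ℝ, 1 < lam → Tendsto (fun x : ℝ =>
        (∫ t in x..(lam * x), nagaoSum W ⌊t⌋₊ / t) / (Real.log lam * Real.log x)) atTop (𝓝 m)) ∧
    ((∀ K : ℝ, (m : ℝ) < K → ∀ᶠ x : ℝ in atTop, nagaoSum W ⌊x⌋₊ ≤ K * Real.log x) →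
      ∀ ε : ℝ, 0 < ε → ∀ lam : ℝ, 1 < lam → Tendsto (fun x : ℝ =>
        (volume ({t : ℝ | ε < |nagaoSum W ⌊t⌋₊ / Real.log t - m|}
          ∩ Ioc x (lam * x))).toReal / x) atTop (𝓝 0)) ∧
    ((∀ x : ℝ, 1 < x → x ≤ 3 / 2 → F x ≠ 0) →
      (∀ K : ℝ, (∀ᶠ x : ℝ in atTop, K * Real.log x ≤ nagaoSum W ⌊x⌋₊) →
        (∀ s : ℂ, 1 < s.re → F s ≠ 0) ∧ K ≤ (m : ℝ) ∧
        ∀ lam : ℝ, 1 < lam → Tendsto (fun x : ℝ =>
          (∫ t in x..(lam * x), nagaoSum W ⌊t⌋₊ / t) / (Real.log lam * Real.log x)) atTop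
            (𝓝 m)) ∧
      ((∀ K : ℝ, K < (m : ℝ) → ∀ᶠ x : ℝ in atTop, K * Real.log x ≤ nagaoSum W ⌊x⌋₊) →
        ∀ ε : ℝ, 0 < ε → ∀ lam : ℝ, 1 < lam → Tendsto (fun x : ℝ =>
          (volume ({t : ℝ | ε < |nagaoSum W ⌊t⌋₊ / Real.log t - m|}
            ∩ Ioc x (lam * x))).toReal / x) atTop (𝓝 0))) := by
  refine ⟨fun n hn => ⟨congr_disc_ne n hn, exists_isCont n hn⟩, ?_⟩
  rintro W hΔ F m ⟨hF, hFL, hm⟩
  refine ⟨fun K h => nagao_upper_main W F hF hFL m hm K h, fun h ε hε lam hl => ?_, fun hZ => ?_⟩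
  · have h1 := (nagao_upper_main W F hF hFL m hm (m + 1) (h _ (by linarith))).2.2 lam hl
    exact nagao_density W F m hm 1 (Or.inl rfl) (fun K hK => by
      have := h K (by linarith)
      simpa using this) lam hl h1 ε hε
  · have hne := ne_real W F hΔ hFL 0 (by simpa using hZ)
    refine ⟨fun K h => nagao_lower_main W F hF hFL m hm hne K h, fun h ε hε lam hl => ?_⟩
    have h1 := (nagao_lower_main W F hF hFL m hm hne (m - 1) (h _ (by linarith))).2.2 lam hl
    exact nagao_density W F m hm (-1) (Or.inr rfl) (fun K hK => by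
      filter_upwards [h (-K) (by linarith)] with x hx
      linarith) lam hl h1 ε hε

end Pool.Agent.Helper9.Retired.MestreNagao
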